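import Mathlib
import Pool.Agent.H41.SF.Doubling

set_option autoImplicit false

namespace Pool.Agent.H49.Gol

open Finset Filter Topology Classical

/-- M14: there are enough primes `≡ 3 mod 4` -/
theorem primes_lower : ∃ c : ℝ, 0 < c ∧ ∀ᶠ W : ℕ in atTop,
    c * W / Real.log W ≤ (((Icc 1 W).filter (fun w => (4 * w - 1).Prime)).card : ℝ) := by
  have hu : IsUnit (3 : ZMod 4) := by decide
  obtain ⟨B, hB2, hB⟩ := Pool.Agent.H41.SF.window_lower (q := 4) hu
  have hB0 : (0 : ℝ) < B := by exact_mod_cast (by omega : 0 < B)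
  refine ⟨1 / (2 * B), by positivity, ?_⟩
  filter_upwards [eventually_ge_atTop (4 * B + 4)] with W hW
  set y := (4 * W - 1) / B with hy
  have hy1 : B * y ≤ 4 * W - 1 := Nat.mul_div_le _ _
  have hy2 : 4 * W - 1 < B * (y + 1) := by
    have := Nat.lt_mul_div_succ (4 * W - 1) (by omega : 0 < B)
    simpa [hy] using this
  have hyW : W ≤ B * y := by
    have : B * (y + 1) = B * y + B := by ring
    omega
  have hy3 : 3 ≤ y := by
    by_contra hcon
    have : B * y ≤ B * 2 := Nat.mul_le_mul_left B (by omega)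
    omega
  have hyle : y ≤ 4 * W := by
    calc y ≤ B * y := Nat.le_mul_of_pos_left y (by omega)
      _ ≤ 4 * W - 1 := hy1
      _ ≤ 4 * W := by omega
  have h1 := hB y hy3
  have hcard : ((Ioc y (B*y)).filter (fun p : ℕ => p.Prime ∧ (p : ZMod 4) = 3)).card ≤
      ((Icc 1 W).filter (fun w => (4 * w - 1).Prime)).card := by
    apply Finset.card_le_card_of_injOn (fun p => (p + 1) / 4)
    · intro p hp
      simp only [coe_filter, mem_Ioc, Set.mem_setOf_eq] at hp
      obtain ⟨⟨h2, h3⟩, h4, h5⟩ := hp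
      have h6 : p % 4 = 3 := by
        have := (ZMod.natCast_eq_natCast_iff' p 3 4).1 (by exact_mod_cast h5)
        simpa using this
      simp only [coe_filter, mem_Icc, Set.mem_setOf_eq]
      have h7 : 4 * ((p + 1) / 4) - 1 = p := by omega
      refine ⟨⟨by omega, by omega⟩, by rw [h7]; exact h4⟩
    · intro p hp p' hp' h
      simp only [coe_filter, mem_Ioc, Set.mem_setOf_eq] at hp hp'
      have h6 : p % 4 = 3 := by
        have := (ZMod.natCast_eq_natCast_iff' p 3 4).1 (by exact_mod_cast hp.2.2)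
        simpa using this
      have h6' : p' % 4 = 3 := by
        have := (ZMod.natCast_eq_natCast_iff' p' 3 4).1 (by exact_mod_cast hp'.2.2)
        simpa using this
      simp only at h
      omega
  have hcard' : (((Ioc y (B*y)).filter (fun p : ℕ => p.Prime ∧ (p : ZMod 4) = 3)).card : ℝ) ≤
      (((Icc 1 W).filter (fun w => (4 * w - 1).Prime)).card : ℝ) := by exact_mod_cast hcard
  refine le_trans ?_ (h1.trans hcard')
  have hWr : (8 : ℝ) ≤ W := by exact_mod_cast (by omega : 8 ≤ W)
  have hy3r : (3 : ℝ) ≤ y := by exact_mod_cast hy3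
  have hlogy : 0 < Real.log y := Real.log_pos (by linarith)
  have hlogW : 0 < Real.log W := Real.log_pos (by linarith)
  have hlog : Real.log y ≤ 2 * Real.log W := by
    have : (y : ℝ) ≤ W ^ 2 := by
      have h8 : (y : ℝ) ≤ 4 * W := by exact_mod_cast hyle
      nlinarith
    calc Real.log y ≤ Real.log ((W : ℝ) ^ 2) := Real.log_le_log (by linarith) this
      _ = 2 * Real.log W := by rw [Real.log_pow]; push_cast; ring
  have hWB : (W : ℝ) ≤ B * y := by exact_mod_cast hyW
  rw [div_le_div_iff₀ hlogW hlogy]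
  have h9 : (1 / (2 * (B : ℝ))) * W ≤ y / 2 := by
    rw [div_mul_eq_mul_div, one_mul, div_le_div_iff₀ (by positivity) (by norm_num)]
    linarith
  calc 1 / (2 * (B : ℝ)) * W * Real.log y ≤ y / 2 * (2 * Real.log W) :=
        mul_le_mul h9 hlog hlogy.le (by linarith)
    _ = y * Real.log W := by ring

end Pool.Agent.H49.Gol
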