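import Pool.Agent.H49.Gol.WeightAux

set_option autoImplicit false

/-! The tail of the block sums beyond `log y = p^(3/5)`. -/

namespace Pool.Agent.H49.Gol

open Finset Filter Topology Pool.Agent.H95.Gol

lemma not_isSquare_sp (s : ℤ) (hs : s = 1 ∨ s = -1) (p : ℕ) (hp : p.Prime) :
    ¬ IsSquare (s * (p : ℤ)) := by
  rintro ⟨r, hr⟩
  have h1 : (s * (p : ℤ)).natAbs = p := by
    rcases hs with rfl | rfl <;> simp
  have h2 : p = r.natAbs * r.natAbs := by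
    rw [← h1, hr, Int.natAbs_mul]
  have h3 : ¬ p.Prime := by
    rw [h2]
    exact Nat.not_prime_mul (by
      intro h; rw [h] at h2; exact hp.one_lt.ne' (by simpa using h2)) (by
      intro h; rw [h] at h2; exact hp.one_lt.ne' (by simpa using h2))
  exact h3 hp

/-- the tail bound -/
lemma tail (hc : CharHyp) : ∃ C : ℝ, 0 < C ∧ ∀ (s : ℤ), (s = 1 ∨ s = -1) → ∀ p : ℕ, p.Prime →
    ∀ k₁ : ℕ, p ^ 3 ≤ (2 ^ k₁) ^ 5 → ∀ a b : ℕ, k₁ ≤ a → a ≤ b →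
      |∑ k ∈ Ico a b, Dk (s * p) k| ≤ C := by
  obtain ⟨C, hC, hchar⟩ := hc
  obtain ⟨Cp, hCp, hPV⟩ := Pool.Agent.H36.Gol.F_sum_PV
  set C' := max Cp 2 with hC'
  have hC'2 : 2 ≤ C' := le_max_right _ _
  have hC'p : Cp ≤ C' := le_max_left _ _
  set K := Real.log C' + 2 with hK
  have hlC' : 0 ≤ Real.log C' := Real.log_nonneg (by linarith)
  have hK2 : 2 ≤ K := by linarith
  refine ⟨C * (1 + C' * K ^ 2 * 40 ^ 3 * 2 / Real.log 2), by positivity, ?_⟩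
  intro s hs p hp k₁ hk a b ha hab
  have hp2 : (2 : ℝ) ≤ p := by exact_mod_cast hp.two_le
  have hp0 : (0 : ℝ) < p := by linarith
  set L := Real.log (2 * p) with hL
  have hL1 : 1 ≤ L := by
    rw [hL, Real.le_log_iff_exp_le (by positivity)]
    have := Real.exp_one_lt_d9
    linarith
  set M := C' * √p * L with hM
  have hsq : √(2:ℝ) ≤ √p := Real.sqrt_le_sqrt hp2
  have hsq1 : 1 ≤ √(p : ℝ) := by
    rw [Real.one_le_sqrt]; linarith
  have hM2 : 2 ≤ M := by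
    calc (2 : ℝ) = 2 * 1 * 1 := by ring
      _ ≤ C' * √p * L := by gcongr
  rw [sum_Dk _ _ _ hab]
  have h1 := hchar (F (s * p)) M hM2 (Pool.Agent.H66.Gol.F_mul _)
    (by simp [F]) (Pool.Agent.H66.Gol.F_values _) (by
      intro N
      refine (hPV p s hp hs N).trans ?_
      rw [hM]
      gcongr) (bb b) (bb a) (two_le_bb a) (bb_mono hab)
  refine h1.trans ?_
  refine mul_le_mul_of_nonneg_left ?_ hC.le
  have hlogbb : (2:ℝ) ^ k₁ * Real.log 2 ≤ Real.log (bb a) := by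
    rw [log_bb]
    have : (2:ℝ) ^ k₁ ≤ 2 ^ a := pow_le_pow_right₀ (by norm_num) ha
    exact mul_le_mul_of_nonneg_right this (Real.log_pos (by norm_num)).le
  -- `2^k₁ ≥ p^(3/5)`
  have hpk : (p : ℝ) ^ (3 / 5 : ℝ) ≤ 2 ^ k₁ := by
    have h2 : ((p : ℝ)) ^ (3 : ℕ) ≤ ((2:ℝ) ^ k₁) ^ (5 : ℕ) := by exact_mod_cast hk
    have h3 : ((p : ℝ) ^ (3 / 5 : ℝ)) ^ (5 : ℕ) ≤ ((2:ℝ) ^ k₁) ^ (5 : ℕ) := by
      refine le_trans (le_of_eq ?_) h2
      rw [← Real.rpow_natCast, ← Real.rpow_mul hp0.le, ← Real.rpow_natCast]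
      norm_num
    exact le_of_pow_le_pow_left₀ (by norm_num) (by positivity) h3
  have hl2 : 0 < Real.log 2 := Real.log_pos (by norm_num)
  -- `log M ≤ K L`
  have hlogM : Real.log M ≤ K * L := by
    have hM' : M ≤ C' * (2 * p) ^ 2 := by
      have h4 : L ≤ 2 * p := (Real.log_le_sub_one_of_pos (by positivity)).trans (by linarith)
      have h5 : √(p:ℝ) ≤ 2 * p := by
        rw [Real.sqrt_le_left (by positivity)]
        nlinarith
      calc M = C' * √p * L := rfl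
        _ ≤ C' * (2 * p) * (2 * p) := by gcongr
        _ = C' * (2 * p) ^ 2 := by ring
    calc Real.log M ≤ Real.log (C' * (2 * p) ^ 2) := Real.log_le_log (by linarith) hM'
      _ = Real.log C' + 2 * L := by
          rw [Real.log_mul (by linarith) (by positivity), Real.log_pow]; push_cast; ring
      _ ≤ K * L := by rw [hK]; nlinarith
  have hlogM0 : 0 ≤ Real.log M := Real.log_nonneg (by linarith)
  -- `L ≤ 40 (2p)^(1/40)`
  have hLpow : L ≤ 40 * (2 * p : ℝ) ^ (1 / 40 : ℝ) := by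
    have := Real.log_le_rpow_div (x := 2 * (p:ℝ)) (ε := 1 / 40) (by positivity) (by norm_num)
    rw [hL]
    linarith [this]
  have hL3 : L ^ 3 ≤ 40 ^ 3 * 2 * (p : ℝ) ^ (1 / 10 : ℝ) := by
    have h6 : L ^ 3 ≤ (40 * (2 * p : ℝ) ^ (1 / 40 : ℝ)) ^ 3 := by gcongr
    refine h6.trans ?_
    rw [mul_pow]
    have h7 : ((2 * p : ℝ) ^ (1 / 40 : ℝ)) ^ 3 ≤ 2 * (p : ℝ) ^ (1 / 10 : ℝ) := by
      rw [← Real.rpow_natCast, ← Real.rpow_mul (by positivity),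
        Real.mul_rpow (by norm_num) hp0.le]
      have h8 : (2 : ℝ) ^ (1 / 40 * ((3 : ℕ) : ℝ) : ℝ) ≤ 2 ^ (1 : ℝ) :=
        Real.rpow_le_rpow_of_exponent_le (by norm_num) (by norm_num)
      rw [Real.rpow_one] at h8
      have h9 : (p : ℝ) ^ (1 / 40 * ((3 : ℕ) : ℝ) : ℝ) ≤ p ^ (1 / 10 : ℝ) :=
        Real.rpow_le_rpow_of_exponent_le (by linarith) (by norm_num)
      exact mul_le_mul h8 h9 (by positivity) (by norm_num)
    calc (40 : ℝ) ^ 3 * ((2 * p : ℝ) ^ (1 / 40 : ℝ)) ^ 3 ≤ 40 ^ 3 * (2 * (p : ℝ) ^ (1 / 10 : ℝ)) := by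
          gcongr
      _ = _ := by ring
  have hsqp : √(p : ℝ) * (p : ℝ) ^ (1 / 10 : ℝ) = (p : ℝ) ^ (3 / 5 : ℝ) := by
    rw [Real.sqrt_eq_rpow, ← Real.rpow_add hp0]; norm_num
  have hnum : M * (Real.log M) ^ 2 ≤ C' * K ^ 2 * 40 ^ 3 * 2 * (2 : ℝ) ^ k₁ := by
    calc M * (Real.log M) ^ 2 ≤ M * (K * L) ^ 2 := by gcongr
      _ = C' * K ^ 2 * (√p * L ^ 3) := by rw [hM]; ring
      _ ≤ C' * K ^ 2 * (√p * (40 ^ 3 * 2 * (p : ℝ) ^ (1 / 10 : ℝ))) := by gcongr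
      _ = C' * K ^ 2 * 40 ^ 3 * 2 * (√p * (p : ℝ) ^ (1 / 10 : ℝ)) := by ring
      _ = C' * K ^ 2 * 40 ^ 3 * 2 * (p : ℝ) ^ (3 / 5 : ℝ) := by rw [hsqp]
      _ ≤ _ := by gcongr
  have hlogpos : 0 < Real.log (bb a) := lt_of_lt_of_le (by positivity) hlogbb
  have : M * (Real.log M) ^ 2 / Real.log (bb a) ≤ C' * K ^ 2 * 40 ^ 3 * 2 / Real.log 2 := by
    rw [div_le_div_iff₀ hlogpos hl2]
    calc M * (Real.log M) ^ 2 * Real.log 2 ≤ C' * K ^ 2 * 40 ^ 3 * 2 * (2 : ℝ) ^ k₁ * Real.log 2 := by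
          gcongr
      _ = C' * K ^ 2 * 40 ^ 3 * 2 * ((2 : ℝ) ^ k₁ * Real.log 2) := by ring
      _ ≤ _ := by gcongr
  linarith

end Pool.Agent.H49.Gol
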