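import Pool.Agent.H49.Gol.WeightMain
import Pool.Agent.H57.Gol.Char
import Pool.Agent.H66.Gol.High

set_option autoImplicit false

namespace Pool.Agent.H49.Gol

open Finset Filter Topology Pool.Agent.H95.Gol Classical

/-- M7 -/
theorem weight (s : ℤ) (hs : s = 1 ∨ s = -1) : ∃ μ : ℕ → ℝ,
    (∀ p : ℕ, p.Prime → ∀ a b : ℕ, a ≤ b → |∑ k ∈ Ico a b, Dk (s * p) k| ≤ μ p) ∧
    Summable (fun p : ℕ => if p.Prime then Real.exp (μ p / 2) / (p * √(Real.log p)) else 0) := by
  refine weight_of ?_ ?_ s hs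
  · exact Pool.Agent.H66.Gol.high
  · exact Pool.Agent.H57.Gol.charBound

end Pool.Agent.H49.Gol
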