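import Mathlib
import Pool.Agent.H95.Gol.Basic
import Pool.Agent.H66.Gol.Blk
import Pool.Agent.H66.Gol.Low
import Pool.Agent.H36.Gol.PV

set_option autoImplicit false

/-! Auxiliary facts for the summation of the weights (module M7). -/

namespace Pool.Agent.H49.Gol

open Finset Filter Topology Pool.Agent.H95.Gol

/-- the high module as a hypothesis -/
def HighHyp : Prop := ∃ C : ℝ, 0 < C ∧ ∀ (s : ℤ) (m k : ℕ) (ε : ℝ), (s = 1 ∨ s = -1) → 0 < ε →
    ε ≤ 1 → C * 2^(2*m) ≤ ε^2 * bb k →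
    ((((Ioc (2^m) (2^(m+1))).filter (fun p : ℕ => p.Prime ∧ ε < |Dk (s * p) k|)).card : ℕ) : ℝ) ≤
      C * 2^k / ε^2

/-- the character module as a hypothesis -/
def CharHyp : Prop := ∃ C : ℝ, 0 < C ∧ ∀ (f : ℕ → ℝ) (M : ℝ), 2 ≤ M →
    (∀ m n, f (m * n) = f m * f n) → f 1 = 1 → (∀ n, f n = -1 ∨ f n = 0 ∨ f n = 1) →
    (∀ N, |∑ n ∈ Icc 1 N, f n| ≤ M) → ∀ x y : ℕ, 2 ≤ y → y ≤ x →
    |∑ l ∈ (Ioc y x).filter Nat.Prime, f l / l| ≤
      C * (1 + M * (Real.log M)^2 / Real.log y)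

/-- summation along a sequence of blocks -/
lemma summable_of_blocks {f g : ℕ → ℝ} (hf : ∀ n, 0 ≤ f n) (hg : Summable g)
    (hg0 : ∀ k, 0 ≤ g k) {u : ℕ → ℕ} (hu : StrictMono u) (k₀ : ℕ)
    (h : ∀ k, k₀ ≤ k → ∑ n ∈ Ioc (u k) (u (k+1)), f n ≤ g k) : Summable f := by
  have key : ∀ j, ∑ n ∈ range (u (k₀ + j) + 1), f n ≤
      ∑ n ∈ range (u k₀ + 1), f n + ∑ k ∈ range j, g (k₀ + k) := by
    intro j
    induction j with
    | zero => simp
    | succ j ih =>
      have h1 : u (k₀ + j) ≤ u (k₀ + j + 1) := hu.monotone (Nat.le_succ _)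
      have h2 : ∑ n ∈ range (u (k₀ + (j+1)) + 1), f n =
          ∑ n ∈ range (u (k₀ + j) + 1), f n + ∑ n ∈ Ioc (u (k₀+j)) (u (k₀+j+1)), f n := by
        rw [← add_assoc]
        have h3 : range (u (k₀+j+1) + 1) = range (u (k₀+j)+1) ∪ Ioc (u (k₀+j)) (u (k₀+j+1)) := by
          ext n
          simp only [mem_range, mem_union, mem_Ioc]
          omega
        rw [h3, sum_union]
        rw [disjoint_left]
        intro n hn hn'
        simp only [mem_range, mem_Ioc] at hn hn'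
        omega
      rw [h2, sum_range_succ (fun k => g (k₀ + k))]
      have := h (k₀ + j) (by omega)
      linarith
  have hb : ∀ j, ∑ k ∈ range j, g (k₀ + k) ≤ ∑' k, g k := by
    intro j
    calc ∑ k ∈ range j, g (k₀ + k) = ∑ k ∈ (range j).map (addLeftEmbedding k₀), g k := by
          rw [sum_map]; rfl
      _ ≤ ∑' k, g k := hg.sum_le_tsum _ (fun k _ => hg0 k)
  refine summable_of_sum_range_le (c := ∑ n ∈ range (u k₀ + 1), f n + ∑' k, g k) hf ?_
  intro n
  have h4 : n ≤ u (k₀ + n) + 1 := by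
    have := hu.id_le (k₀ + n)
    simp only [id] at this
    omega
  calc ∑ i ∈ range n, f i ≤ ∑ i ∈ range (u (k₀ + n) + 1), f i :=
        sum_le_sum_of_subset_of_nonneg (range_mono h4) (fun i _ _ => hf i)
    _ ≤ _ := (key n).trans (by linarith [hb n])

/-- the shifted sum of inverse squares -/
lemma sum_sq_inv (j : ℕ) : ∑ k ∈ range j, 1 / ((k : ℝ) + 1)^2 ≤ 2 := by
  have h1 : ∀ j : ℕ, ∑ k ∈ range (j+1), 1 / ((k : ℝ) + 1)^2 ≤ 2 - 1 / ((j : ℝ) + 1) := by
    intro j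
    induction j with
    | zero => norm_num
    | succ j ih =>
      rw [sum_range_succ]
      have hj : (0 : ℝ) ≤ j := Nat.cast_nonneg j
      have e1 : 1 / ((j : ℝ) + 1) - 1 / ((j:ℝ)+1+1) = 1 / (((j:ℝ)+1) * ((j:ℝ)+1+1)) := by
        field_simp; ring
      have e2 : 1 / (((j + 1 : ℕ) : ℝ) + 1)^2 ≤ 1 / (((j:ℝ)+1) * ((j:ℝ)+1+1)) := by
        apply one_div_le_one_div_of_le (by positivity)
        push_cast
        nlinarith
      have e3 : (((j + 1 : ℕ) : ℝ) + 1) = (j:ℝ)+1+1 := by push_cast; ring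
      rw [e3] at e2 ⊢
      linarith
  cases j with
  | zero => simp
  | succ j =>
    refine (h1 j).trans ?_
    have : (0 : ℝ) < 1 / ((j : ℝ) + 1) := by positivity
    linarith

lemma sum_shift (c K : ℕ) :
    ∑ k ∈ range K, (if c ≤ k then 1 / (((k - c : ℕ) : ℝ) + 1)^2 else 0) ≤ 2 := by
  rcases le_or_gt K c with h | h
  · rw [sum_eq_zero]
    · norm_num
    · intro k hk
      rw [mem_range] at hk
      rw [if_neg (by omega)]
  · obtain ⟨n, rfl⟩ : ∃ n, K = c + n := ⟨K - c, by omega⟩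
    rw [sum_range_add, sum_eq_zero (s := range c), zero_add]
    · refine le_trans (le_of_eq (sum_congr rfl fun k _ => ?_)) (sum_sq_inv n)
      rw [if_pos (by omega)]
      simp
    · intro k hk
      rw [mem_range] at hk
      rw [if_neg (by omega)]

/-- telescoping of the blocks -/
lemma sum_Dk (D : ℤ) (a b : ℕ) (h : a ≤ b) :
    ∑ k ∈ Ico a b, Dk D k = ∑ l ∈ (Ioc (bb a) (bb b)).filter Nat.Prime, F D l / l := by
  induction b, h using Nat.le_induction with
  | base => simp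
  | succ b hb ih =>
    rw [Finset.sum_Ico_succ_top hb, ih, Dk]
    have h1 : (Ioc (bb a) (bb (b+1))).filter Nat.Prime =
        (Ioc (bb a) (bb b)).filter Nat.Prime ∪ PB b := by
      ext l
      simp only [mem_filter, mem_Ioc, mem_union, PB]
      have h2 := bb_mono hb
      have h3 := bb_mono (Nat.le_succ b)
      simp only [Nat.succ_eq_add_one] at h3
      constructor
      · rintro ⟨⟨h4, h5⟩, h6⟩
        rcases le_or_gt l (bb b) with h7 | h7
        · left; exact ⟨⟨h4, h7⟩, h6⟩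
        · right; exact ⟨⟨h7, h5⟩, h6⟩
      · rintro (⟨⟨h4, h5⟩, h6⟩ | ⟨⟨h4, h5⟩, h6⟩)
        · exact ⟨⟨h4, by omega⟩, h6⟩
        · exact ⟨⟨by omega, h5⟩, h6⟩
    rw [h1, sum_union]
    rw [disjoint_left]
    intro l hl hl'
    simp only [mem_filter, mem_Ioc, PB] at hl hl'
    omega

lemma abs_F_le (D : ℤ) (n : ℕ) : |F D n| ≤ 1 := by
  rcases Pool.Agent.H66.Gol.F_values D n with h | h | h <;> rw [h] <;> norm_num

lemma abs_Dk_le (D : ℤ) (k : ℕ) : |Dk D k| ≤ ∑ l ∈ PB k, (1 : ℝ) / l := by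
  unfold Dk
  refine (abs_sum_le_sum_abs _ _).trans (sum_le_sum fun l _ => ?_)
  rw [abs_div, abs_of_nonneg (Nat.cast_nonneg l : (0:ℝ) ≤ l)]
  exact div_le_div_of_nonneg_right (abs_F_le D l) (Nat.cast_nonneg l)

end Pool.Agent.H49.Gol
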