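import Pool.Agent.H49.Gol.WeightDefs

set_option autoImplicit false

/-! The number of bad primes (module M7). -/

namespace Pool.Agent.H49.Gol

open Finset Filter Topology Pool.Agent.H95.Gol

lemma two_pow_ge (j : ℕ) : j + 1 ≤ 2 ^ j := Nat.lt_two_pow_self

lemma log_facts {m : ℕ} (hm : 4 ≤ m) : 2 ^ Nat.log 2 m ≤ m ∧ m + 1 ≤ 2 ^ (Nat.log 2 m + 1) ∧
    2 ≤ Nat.log 2 m := by
  refine ⟨Nat.pow_log_le_self 2 (by omega), ?_, ?_⟩
  · have := Nat.lt_pow_succ_log_self (b := 2) (by norm_num) m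
    simpa using this
  · exact (Nat.le_log_iff_pow_le (by norm_num) (by omega)).2 (by omega)

lemma kz_facts {m : ℕ} (hm : 4 ≤ m) : 4 * Nat.log 2 m + 1 ≤ 2 ^ kz m ∧
    2 ^ kz m ≤ 8 * Nat.log 2 m := by
  obtain ⟨-, -, h⟩ := log_facts hm
  unfold kz
  constructor
  · have := Nat.lt_pow_succ_log_self (b := 2) (by norm_num) (4 * Nat.log 2 m)
    simpa using this
  · have := Nat.pow_log_le_self 2 (x := 4 * Nat.log 2 m) (by omega)
    rw [pow_succ]; omega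

/-- one low block -/
lemma low_one (s : ℤ) (hs : s = 1 ∨ s = -1) {m k : ℕ} (hm : 4 ≤ m) (hk0 : kz m ≤ k)
    (hk : k + 4 ≤ Nat.log 2 m) :
    ((((Ioc (2^m) (2^(m+1))).filter (fun a : ℕ => ep (kz m) k < |Dk (s * a) k|)).card : ℕ) : ℝ) ≤
      2 * 2 ^ m / 2 ^ (4 * Nat.log 2 m) * (1 / 2 ^ (k - kz m)) := by
  obtain ⟨hl1, hl2, hl3⟩ := log_facts hm
  obtain ⟨hz1, hz2⟩ := kz_facts hm
  set i := Nat.log 2 m with hi
  set j := k - kz m with hj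
  have hkj : k = kz m + j := by omega
  set S := (Ioc (2^m) (2^(m+1))).filter (fun a : ℕ => ep (kz m) k < |Dk (s * a) k|) with hS
  have h1 := Pool.Agent.H66.Gol.low s hs (2 ^ m) k
  have h2 : (S.card : ℝ) * (ep (kz m) k) ^ 2 ≤ ∑ a ∈ (Ioc (2 ^ m) (2 * 2 ^ m) : Finset ℕ),
      (Dk (s * a) k)^2 := by
    have e : 2 * 2 ^ m = 2 ^ (m + 1) := by rw [pow_succ]; ring
    rw [e]
    calc (S.card : ℝ) * (ep (kz m) k) ^ 2 = ∑ a ∈ S, (ep (kz m) k) ^ 2 := by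
          rw [sum_const, nsmul_eq_mul]
      _ ≤ ∑ a ∈ S, (Dk (s * a) k)^2 := by
          refine sum_le_sum fun a ha => ?_
          rw [hS, mem_filter] at ha
          rw [← sq_abs (Dk (s * a) k)]
          exact pow_le_pow_left₀ (ep_pos _ _).le ha.2.le 2
      _ ≤ _ := sum_le_sum_of_subset_of_nonneg (filter_subset _ _) (fun a _ _ => sq_nonneg _)
  -- sizes
  have h16 : 2 ^ k * 16 ≤ m := by
    calc 2 ^ k * 16 = 2 ^ (k + 4) := by rw [pow_add]; norm_num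
      _ ≤ 2 ^ i := Nat.pow_le_pow_right (by norm_num) hk
      _ ≤ m := hl1
  have hbb : ((bb (k+1) : ℝ))^2 ≤ 2 ^ m / bb k := by
    rw [le_div_iff₀ (by exact_mod_cast bb_pos k)]
    have : bb (k+1) ^ 2 * bb k ≤ 2 ^ m := by
      unfold bb
      rw [← pow_mul, ← pow_add]
      apply Nat.pow_le_pow_right (by norm_num)
      rw [pow_succ]; omega
    exact_mod_cast this
  have h3 : (S.card : ℝ) * (ep (kz m) k) ^ 2 ≤ 2 * (2 ^ m / bb k) := by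
    push_cast at h1
    linarith
  have h5j : 4 * i + 5 * j ≤ 2 ^ k := by
    rw [hkj, pow_add]
    have hj1 := two_pow_ge j
    calc 4 * i + 5 * j ≤ (4 * i + 1) * (j + 1) := by nlinarith
      _ ≤ 2 ^ kz m * 2 ^ j := Nat.mul_le_mul hz1 hj1
  have hbbk : (2:ℝ) ^ (4 * i) * 32 ^ j ≤ bb k := by
    have : 2 ^ (4 * i) * 32 ^ j ≤ bb k := by
      unfold bb
      calc 2 ^ (4 * i) * 32 ^ j = 2 ^ (4 * i + 5 * j) := by
            rw [pow_add, pow_mul 2 5 j]; norm_num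
        _ ≤ 2 ^ (2 ^ k) := Nat.pow_le_pow_right (by norm_num) h5j
    exact_mod_cast this
  have hj4 : ((j : ℝ) + 1) ^ 4 ≤ 16 ^ j := by
    have : (j + 1) ^ 4 ≤ 16 ^ j := by
      calc (j + 1) ^ 4 ≤ (2 ^ j) ^ 4 := Nat.pow_le_pow_left (two_pow_ge j) 4
        _ = 16 ^ j := by rw [← pow_mul, mul_comm, pow_mul]; norm_num
    exact_mod_cast this
  have hep : (ep (kz m) k) ^ 2 = 1 / ((j : ℝ) + 1) ^ 4 := by
    unfold ep
    rw [← hj, div_pow, one_pow, ← pow_mul]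
  rw [hep, mul_one_div, div_le_iff₀ (by positivity)] at h3
  have hbk0 : (0 : ℝ) < bb k := by exact_mod_cast bb_pos k
  calc (S.card : ℝ) ≤ 2 * (2 ^ m / bb k) * ((j : ℝ) + 1) ^ 4 := h3
    _ ≤ 2 * (2 ^ m / (2 ^ (4 * i) * 32 ^ j)) * 16 ^ j := by gcongr
    _ = 2 * 2 ^ m / 2 ^ (4 * i) * (16 ^ j / 32 ^ j) := by field_simp
    _ = 2 * 2 ^ m / 2 ^ (4 * i) * (1 / 2 ^ j) := by
        congr 1
        rw [← div_pow, ← one_div_pow]; norm_num

lemma card_BadL (s : ℤ) (hs : s = 1 ∨ s = -1) {m : ℕ} (hm : 4 ≤ m)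
    [DecidablePred (fun p : ℕ => BadL s p)] :
    ((((Ioc (2^m) (2^(m+1))).filter (fun p : ℕ => BadL s p)).card : ℕ) : ℝ) ≤
      64 * 2 ^ m / m ^ 4 := by
  classical
  obtain ⟨hl1, hl2, hl3⟩ := log_facts hm
  have hsub : (Ioc (2^m) (2^(m+1))).filter (fun p : ℕ => BadL s p) ⊆
      (Ico (kz m) (Nat.log 2 m - 3)).biUnion (fun k => (Ioc (2^m) (2^(m+1))).filter
        (fun a : ℕ => ep (kz m) k < |Dk (s * a) k|)) := by
    intro p hp
    simp only [mem_filter, mem_Ioc] at hp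
    obtain ⟨⟨h1, h2⟩, k, hk1, hk2, hk3⟩ := hp
    rw [ml_eq h1 h2] at hk1 hk2 hk3
    simp only [mem_biUnion, mem_Ico, mem_filter, mem_Ioc]
    exact ⟨k, ⟨hk1, by omega⟩, ⟨h1, h2⟩, hk3⟩
  have h1 : ((((Ioc (2^m) (2^(m+1))).filter (fun p : ℕ => BadL s p)).card : ℕ) : ℝ) ≤
      ∑ k ∈ Ico (kz m) (Nat.log 2 m - 3), ((((Ioc (2^m) (2^(m+1))).filter
        (fun a : ℕ => ep (kz m) k < |Dk (s * a) k|)).card : ℕ) : ℝ) := by
    exact_mod_cast (card_le_card hsub).trans card_biUnion_le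
  refine h1.trans ?_
  have h2 : ∑ k ∈ Ico (kz m) (Nat.log 2 m - 3), ((((Ioc (2^m) (2^(m+1))).filter
        (fun a : ℕ => ep (kz m) k < |Dk (s * a) k|)).card : ℕ) : ℝ) ≤
      ∑ k ∈ Ico (kz m) (Nat.log 2 m - 3), 2 * 2 ^ m / 2 ^ (4 * Nat.log 2 m) *
        (1 / 2 ^ (k - kz m)) := by
    refine sum_le_sum fun k hk => ?_
    rw [mem_Ico] at hk
    exact low_one s hs hm hk.1 (by omega)
  refine h2.trans ?_
  rw [← mul_sum]
  have h3 : ∑ k ∈ Ico (kz m) (Nat.log 2 m - 3), (1:ℝ) / 2 ^ (k - kz m) ≤ 2 := by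
    rw [sum_Ico_eq_sum_range]
    have h4 : ∀ n : ℕ, ∑ k ∈ range n, (1:ℝ) / 2 ^ (kz m + k - kz m) ≤ 2 - 2 / 2 ^ n := by
      intro n
      induction n with
      | zero => simp
      | succ n ih =>
        rw [sum_range_succ]
        have e : kz m + n - kz m = n := by omega
        rw [e, pow_succ]
        have : (0:ℝ) < 2 ^ n := by positivity
        have e2 : (2:ℝ) / (2 ^ n * 2) = 1 / 2 ^ n := by field_simp
        have e3 : (2:ℝ) / 2 ^ n = 1 / 2 ^ n + 1 / 2 ^ n := by field_simp; norm_num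
        rw [e2]
        rw [e3] at ih
        linarith
    refine (h4 _).trans ?_
    have : (0:ℝ) < 2 / 2 ^ (Nat.log 2 m - 3 - kz m) := by positivity
    linarith
  have hm4 : (m : ℝ) ^ 4 ≤ 16 * 2 ^ (4 * Nat.log 2 m) := by
    have : m ^ 4 ≤ 16 * 2 ^ (4 * Nat.log 2 m) := by
      calc m ^ 4 ≤ (2 ^ (Nat.log 2 m + 1)) ^ 4 := Nat.pow_le_pow_left (by omega) 4
        _ = 16 * 2 ^ (4 * Nat.log 2 m) := by
            rw [← pow_mul, add_mul, pow_add, mul_comm (Nat.log 2 m) 4]; norm_num; ring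
    exact_mod_cast this
  have hm0 : (0:ℝ) < m := by exact_mod_cast (by omega : 0 < m)
  calc 2 * 2 ^ m / 2 ^ (4 * Nat.log 2 m) * ∑ k ∈ Ico (kz m) (Nat.log 2 m - 3), (1:ℝ) / 2 ^ (k - kz m)
      ≤ 2 * 2 ^ m / 2 ^ (4 * Nat.log 2 m) * 2 := by gcongr
    _ ≤ 64 * 2 ^ m / m ^ 4 := by
        rw [div_mul_eq_mul_div, div_le_div_iff₀ (by positivity) (by positivity)]
        have h5 : (0:ℝ) < 2 ^ m := by positivity
        calc 2 * 2 ^ m * 2 * (m:ℝ) ^ 4 ≤ 2 * 2 ^ m * 2 * (16 * 2 ^ (4 * Nat.log 2 m)) := by gcongr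
          _ = 64 * 2 ^ m * 2 ^ (4 * Nat.log 2 m) := by ring

lemma card_BadH (hh : HighHyp) : ∃ (C : ℝ) (m₀ : ℕ), 0 < C ∧ 4 ≤ m₀ ∧ ∀ (s : ℤ), (s = 1 ∨ s = -1) →
    ∀ m, m₀ ≤ m → ∀ [DecidablePred (fun p : ℕ => p.Prime ∧ BadH s p)],
    ((((Ioc (2^m) (2^(m+1))).filter (fun p : ℕ => p.Prime ∧ BadH s p)).card : ℕ) : ℝ) ≤
      C * (ko m) ^ 5 * 2 ^ ko m := by
  classical
  obtain ⟨C, hC, hhigh⟩ := hh
  refine ⟨C, ⌈C⌉₊ + 4, hC, by omega, ?_⟩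
  intro s hs m hm _
  have hm4 : 4 ≤ m := by omega
  obtain ⟨hl1, hl2, hl3⟩ := log_facts hm4
  set i := Nat.log 2 m with hi
  have hC2 : C ≤ 2 ^ (2 * m) := by
    calc C ≤ ⌈C⌉₊ := Nat.le_ceil C
      _ ≤ (m : ℝ) := by exact_mod_cast (by omega : ⌈C⌉₊ ≤ m)
      _ ≤ 2 ^ m := by exact_mod_cast (Nat.lt_two_pow_self (n := m)).le
      _ ≤ 2 ^ (2 * m) := pow_le_pow_right₀ (by norm_num) (by omega)
  have hone : ∀ k ∈ Ico (i + 3) (ko m), ((((Ioc (2^m) (2^(m+1))).filter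
      (fun p : ℕ => p.Prime ∧ ep (i + 3) k < |Dk (s * p) k|)).card : ℕ) : ℝ) ≤
      C * 2 ^ ko m * (ko m) ^ 4 := by
    intro k hk
    rw [mem_Ico] at hk
    set j := k - (i + 3) with hj
    have hep : (ep (i + 3) k) ^ 2 = 1 / ((j : ℝ) + 1) ^ 4 := by
      unfold ep
      rw [← hj, div_pow, one_pow, ← pow_mul]
    have hbb : (2:ℝ) ^ (4 * m) * ((j : ℝ) + 1) ^ 4 ≤ bb k := by
      have : 2 ^ (4 * m) * (j + 1) ^ 4 ≤ bb k := by
        unfold bb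
        calc 2 ^ (4 * m) * (j + 1) ^ 4 ≤ 2 ^ (4 * m) * (2 ^ (2 ^ j)) ^ 4 := by
              have : j + 1 ≤ 2 ^ (2 ^ j) := (two_pow_ge j).trans Nat.lt_two_pow_self.le
              gcongr
          _ = 2 ^ (4 * m + 2 ^ j * 4) := by rw [← pow_mul, ← pow_add]
          _ ≤ 2 ^ (2 ^ k) := by
              apply Nat.pow_le_pow_right (by norm_num)
              have e : 2 ^ k = 4 * 2 ^ (i + 1) * 2 ^ j := by
                have : k = (i + 1) + 2 + j := by omega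
                rw [this, pow_add, pow_add]; ring
              rw [e]
              have h1 := Nat.one_le_two_pow (n := j)
              have h2 : 4 * (m + 1) * 2 ^ j ≤ 4 * 2 ^ (i + 1) * 2 ^ j := by gcongr
              nlinarith
      exact_mod_cast this
    have h1 := hhigh s m k (ep (i + 3) k) hs (ep_pos _ _) (ep_le_one _ _) (by
      rw [hep, div_mul_eq_mul_div, one_mul, le_div_iff₀ (by positivity)]
      calc C * 2 ^ (2 * m) * ((j : ℝ) + 1) ^ 4 ≤ 2 ^ (2 * m) * 2 ^ (2 * m) * ((j : ℝ) + 1) ^ 4 := by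
            gcongr
        _ = 2 ^ (4 * m) * ((j : ℝ) + 1) ^ 4 := by rw [← pow_add]; congr 2; ring
        _ ≤ bb k := hbb)
    refine h1.trans ?_
    rw [hep, div_div_eq_mul_div, div_one]
    have h2 : (2:ℝ) ^ k ≤ 2 ^ ko m := pow_le_pow_right₀ (by norm_num) hk.2.le
    have h3 : ((j : ℝ) + 1) ≤ ko m := by exact_mod_cast (by omega : j + 1 ≤ ko m)
    gcongr
  have hsub : (Ioc (2^m) (2^(m+1))).filter (fun p : ℕ => p.Prime ∧ BadH s p) ⊆
      (Ico (i + 3) (ko m)).biUnion (fun k => (Ioc (2^m) (2^(m+1))).filter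
        (fun p : ℕ => p.Prime ∧ ep (i + 3) k < |Dk (s * p) k|)) := by
    intro p hp
    simp only [mem_filter, mem_Ioc] at hp
    obtain ⟨⟨h1, h2⟩, hpr, k, hk1, hk2, hk3⟩ := hp
    rw [ml_eq h1 h2] at hk1 hk2 hk3
    simp only [mem_biUnion, mem_Ico, mem_filter, mem_Ioc]
    exact ⟨k, ⟨hk1, hk2⟩, ⟨h1, h2⟩, hpr, hk3⟩
  have h1 : ((((Ioc (2^m) (2^(m+1))).filter (fun p : ℕ => p.Prime ∧ BadH s p)).card : ℕ) : ℝ) ≤
      ∑ k ∈ Ico (i + 3) (ko m), ((((Ioc (2^m) (2^(m+1))).filter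
        (fun p : ℕ => p.Prime ∧ ep (i + 3) k < |Dk (s * p) k|)).card : ℕ) : ℝ) := by
    exact_mod_cast (card_le_card hsub).trans card_biUnion_le
  refine h1.trans ((sum_le_sum hone).trans ?_)
  rw [sum_const, nsmul_eq_mul, Nat.card_Ico]
  have h2 : ((ko m - (i + 3) : ℕ) : ℝ) ≤ ko m := by exact_mod_cast Nat.sub_le _ _
  calc ((ko m - (i + 3) : ℕ) : ℝ) * (C * 2 ^ ko m * (ko m) ^ 4) ≤ ko m * (C * 2 ^ ko m * (ko m) ^ 4) := by
        gcongr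
    _ = C * (ko m) ^ 5 * 2 ^ ko m := by ring

end Pool.Agent.H49.Gol
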