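import Pool.Agent.H49.Gol.Tail

set_option autoImplicit false

/-! Classes of primes for the weights, and the bounds of the block sums (module M7). -/

namespace Pool.Agent.H49.Gol

open Finset Filter Topology Pool.Agent.H95.Gol

/-- `2^(ml p) < p ≤ 2^(ml p + 1)` -/
def ml (p : ℕ) : ℕ := Nat.log 2 (p - 1)
def kz (m : ℕ) : ℕ := Nat.log 2 (4 * Nat.log 2 m) + 1
def ko (m : ℕ) : ℕ := 3 * m / 5 + 2
noncomputable def ep (c k : ℕ) : ℝ := 1 / (((k - c : ℕ) : ℝ) + 1)^2

def BadL (s : ℤ) (p : ℕ) : Prop :=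
  ∃ k, kz (ml p) ≤ k ∧ k + 4 ≤ Nat.log 2 (ml p) ∧ ep (kz (ml p)) k < |Dk (s * p) k|
def BadH (s : ℤ) (p : ℕ) : Prop :=
  ∃ k, Nat.log 2 (ml p) + 3 ≤ k ∧ k < ko (ml p) ∧ ep (Nat.log 2 (ml p) + 3) k < |Dk (s * p) k|

lemma ml_eq {p m : ℕ} (h1 : 2 ^ m < p) (h2 : p ≤ 2 ^ (m + 1)) : ml p = m := by
  unfold ml
  rw [Nat.log_eq_iff (Or.inr ⟨by norm_num, by have : 1 ≤ 2 ^ m := Nat.one_le_two_pow; omega⟩)]
  constructor <;> omega

lemma ml_spec {p : ℕ} (hp : 2 ≤ p) : 2 ^ ml p < p ∧ p ≤ 2 ^ (ml p + 1) := by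
  unfold ml
  have h1 := Nat.pow_log_le_self 2 (x := p - 1) (by omega)
  have h2 := Nat.lt_pow_succ_log_self (b := 2) (by norm_num) (p - 1)
  simp only [Nat.succ_eq_add_one] at h2
  omega

lemma ep_pos (c k : ℕ) : 0 < ep c k := by unfold ep; positivity

lemma ep_le_one (c k : ℕ) : ep c k ≤ 1 := by
  unfold ep
  rw [div_le_one (by positivity)]
  have : (0 : ℝ) ≤ ((k - c : ℕ) : ℝ) := Nat.cast_nonneg _
  nlinarith

/-- bound of the absolute block sums -/
lemma sum_tk {Cb : ℝ} (hCb : 0 < Cb) (K : ℕ) :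
    ∑ k ∈ range K, (Real.log 2 + Cb / 2 ^ k) ≤ K * Real.log 2 + 2 * Cb := by
  rw [sum_add_distrib, sum_const, card_range, nsmul_eq_mul]
  have : ∑ k ∈ range K, Cb / 2 ^ k ≤ 2 * Cb := by
    have h1 : ∀ K : ℕ, ∑ k ∈ range K, Cb / 2 ^ k = 2 * Cb - 2 * Cb / 2 ^ K := by
      intro K
      induction K with
      | zero => simp
      | succ K ih =>
        rw [sum_range_succ, ih, pow_succ]
        have : (2:ℝ) ^ K ≠ 0 := by positivity
        field_simp
        ring
    rw [h1 K]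
    have : 0 < 2 * Cb / 2 ^ K := by positivity
    linarith
  linarith

section bounds

variable {Cb : ℝ} (hCb : 0 < Cb) (hblk : ∀ k : ℕ, |∑ l ∈ PB k, (1:ℝ) / l - Real.log 2| ≤ Cb / 2 ^ k)

include hblk in
lemma tk_le (D : ℤ) (k : ℕ) : |Dk D k| ≤ Real.log 2 + Cb / 2 ^ k := by
  have h1 := abs_Dk_le D k
  have h2 := (abs_le.1 (hblk k)).2
  linarith

include hCb hblk

lemma T_all (D : ℤ) (K : ℕ) : ∑ k ∈ range K, |Dk D k| ≤ K * Real.log 2 + 2 * Cb :=
  (sum_le_sum fun k _ => tk_le hblk D k).trans (sum_tk hCb K)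

lemma T_notH (s : ℤ) (p : ℕ) (h : ¬ BadH s p) :
    ∑ k ∈ range (ko (ml p)), |Dk (s * p) k| ≤ Nat.log 2 (ml p) * Real.log 2 + (10 + 10 * Cb) := by
  set i := Nat.log 2 (ml p) with hi
  have h1 : ∀ k ∈ range (ko (ml p)), |Dk (s * p) k| ≤
      (if k < i + 3 then Real.log 2 + Cb / 2 ^ k else 0) +
      (if i + 3 ≤ k then 1 / (((k - (i + 3) : ℕ) : ℝ) + 1)^2 else 0) := by
    intro k hk
    rw [mem_range] at hk
    by_cases hk1 : k < i + 3
    · rw [if_pos hk1, if_neg (by omega), add_zero]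
      exact tk_le hblk _ k
    · rw [if_neg hk1, if_pos (by omega), zero_add]
      by_contra hcon
      push Not at hcon
      exact h ⟨k, by omega, hk, hcon⟩
  refine (sum_le_sum h1).trans ?_
  rw [sum_add_distrib]
  have h2 := sum_shift (i + 3) (ko (ml p))
  have hl2 : 0 < Real.log 2 := Real.log_pos (by norm_num)
  have h3 : ∑ k ∈ range (ko (ml p)), (if k < i + 3 then Real.log 2 + Cb / 2 ^ k else 0) ≤
      ∑ k ∈ range (i + 3), (Real.log 2 + Cb / 2 ^ k) := by
    rw [← sum_filter]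
    apply sum_le_sum_of_subset_of_nonneg
    · intro k hk
      simp only [mem_filter, mem_range] at hk ⊢
      exact hk.2
    · intro k _ _
      positivity
  have h4 := sum_tk hCb (i + 3)
  have h5 : ((i + 3 : ℕ) : ℝ) * Real.log 2 = i * Real.log 2 + 3 * Real.log 2 := by push_cast; ring
  have h6 : Real.log 2 < 0.6931471808 := Real.log_two_lt_d9
  linarith

lemma T_good (s : ℤ) (p : ℕ) (h : ¬ BadH s p) (h' : ¬ BadL s p) :
    ∑ k ∈ range (ko (ml p)), |Dk (s * p) k| ≤ kz (ml p) * Real.log 2 + (10 + 10 * Cb) := by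
  set i := Nat.log 2 (ml p) with hi
  set k₀ := kz (ml p) with hk₀
  have hl2 : 0 < Real.log 2 := Real.log_pos (by norm_num)
  have h1 : ∀ k ∈ range (ko (ml p)), |Dk (s * p) k| ≤
      (if k < k₀ then Real.log 2 + Cb / 2 ^ k else 0) +
      (if k₀ ≤ k then 1 / (((k - k₀ : ℕ) : ℝ) + 1)^2 else 0) +
      (if i < k + 4 ∧ k < i + 3 then Real.log 2 + Cb else 0) +
      (if i + 3 ≤ k then 1 / (((k - (i + 3) : ℕ) : ℝ) + 1)^2 else 0) := by
    intro k hk
    rw [mem_range] at hk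
    have n1 : (0:ℝ) ≤ (if k < k₀ then Real.log 2 + Cb / 2 ^ k else 0) := by
      split_ifs <;> positivity
    have n2 : (0:ℝ) ≤ (if k₀ ≤ k then 1 / (((k - k₀ : ℕ) : ℝ) + 1)^2 else 0) := by
      split_ifs <;> positivity
    have n3 : (0:ℝ) ≤ (if i < k + 4 ∧ k < i + 3 then Real.log 2 + Cb else 0) := by
      split_ifs <;> positivity
    have n4 : (0:ℝ) ≤ (if i + 3 ≤ k then 1 / (((k - (i + 3) : ℕ) : ℝ) + 1)^2 else 0) := by
      split_ifs <;> positivity
    by_cases hk0 : k < k₀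
    · have := tk_le hblk (s * p) k
      have e : (if k < k₀ then Real.log 2 + Cb / 2 ^ k else 0) = Real.log 2 + Cb / 2 ^ k :=
        if_pos hk0
      linarith
    by_cases hk1 : k + 4 ≤ i
    · have : |Dk (s * p) k| ≤ ep k₀ k := by
        by_contra hcon
        push Not at hcon
        exact h' ⟨k, by omega, hk1, hcon⟩
      have e : (if k₀ ≤ k then 1 / (((k - k₀ : ℕ) : ℝ) + 1)^2 else 0) = ep k₀ k :=
        if_pos (by omega)
      linarith
    by_cases hk2 : k < i + 3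
    · have h2 := tk_le hblk (s * p) k
      have h3 : Cb / 2 ^ k ≤ Cb := div_le_self hCb.le (one_le_pow₀ (by norm_num))
      have e : (if i < k + 4 ∧ k < i + 3 then Real.log 2 + Cb else 0) = Real.log 2 + Cb :=
        if_pos ⟨by omega, hk2⟩
      linarith
    · have : |Dk (s * p) k| ≤ ep (i + 3) k := by
        by_contra hcon
        push Not at hcon
        exact h ⟨k, by omega, hk, hcon⟩
      have e : (if i + 3 ≤ k then 1 / (((k - (i + 3) : ℕ) : ℝ) + 1)^2 else 0) = ep (i + 3) k :=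
        if_pos (by omega)
      linarith
  refine (sum_le_sum h1).trans ?_
  rw [sum_add_distrib, sum_add_distrib, sum_add_distrib]
  have h2 := sum_shift (i + 3) (ko (ml p))
  have h2' := sum_shift k₀ (ko (ml p))
  have h3 : ∑ k ∈ range (ko (ml p)), (if k < k₀ then Real.log 2 + Cb / 2 ^ k else 0) ≤
      ∑ k ∈ range k₀, (Real.log 2 + Cb / 2 ^ k) := by
    rw [← sum_filter]
    apply sum_le_sum_of_subset_of_nonneg
    · intro k hk
      simp only [mem_filter, mem_range] at hk ⊢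
      exact hk.2
    · intro k _ _
      positivity
  have h4 := sum_tk hCb k₀
  have h5 : ∑ k ∈ range (ko (ml p)), (if i < k + 4 ∧ k < i + 3 then Real.log 2 + Cb else 0) ≤
      6 * (Real.log 2 + Cb) := by
    rw [← sum_filter, sum_const, nsmul_eq_mul]
    refine mul_le_mul_of_nonneg_right ?_ (by positivity)
    have : ((range (ko (ml p))).filter (fun k => i < k + 4 ∧ k < i + 3)) ⊆ Ico (i - 3) (i + 3) := by
      intro k hk
      simp only [mem_filter, mem_range, mem_Ico] at hk ⊢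
      omega
    have h6 := card_le_card this
    rw [Nat.card_Ico] at h6
    have h7 : ((range (ko (ml p))).filter (fun k => i < k + 4 ∧ k < i + 3)).card ≤ 6 := by omega
    exact_mod_cast h7
  have h6 : Real.log 2 < 0.6931471808 := Real.log_two_lt_d9
  linarith

end bounds

lemma sum_split {Ct : ℝ} {D : ℤ} {k₁ : ℕ} (hCt : 0 ≤ Ct)
    (htail : ∀ a b : ℕ, k₁ ≤ a → a ≤ b → |∑ k ∈ Ico a b, Dk D k| ≤ Ct) (a b : ℕ) (hab : a ≤ b) :
    |∑ k ∈ Ico a b, Dk D k| ≤ ∑ k ∈ range k₁, |Dk D k| + Ct := by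
  have hpos : 0 ≤ ∑ k ∈ range k₁, |Dk D k| := sum_nonneg fun _ _ => abs_nonneg _
  rcases le_or_gt k₁ a with h | h
  · have := htail a b h hab
    linarith
  rcases le_or_gt b k₁ with h' | h'
  · have h1 : |∑ k ∈ Ico a b, Dk D k| ≤ ∑ k ∈ Ico a b, |Dk D k| := abs_sum_le_sum_abs _ _
    have h2 : ∑ k ∈ Ico a b, |Dk D k| ≤ ∑ k ∈ range k₁, |Dk D k| := by
      apply sum_le_sum_of_subset_of_nonneg
      · intro k hk
        simp only [mem_Ico, mem_range] at hk ⊢
        omega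
      · intro k _ _; exact abs_nonneg _
    linarith
  · rw [← sum_Ico_consecutive _ h.le h'.le]
    have h1 : |∑ k ∈ Ico a k₁, Dk D k| ≤ ∑ k ∈ Ico a k₁, |Dk D k| := abs_sum_le_sum_abs _ _
    have h2 : ∑ k ∈ Ico a k₁, |Dk D k| ≤ ∑ k ∈ range k₁, |Dk D k| := by
      apply sum_le_sum_of_subset_of_nonneg
      · intro k hk
        simp only [mem_Ico, mem_range] at hk ⊢
        omega
      · intro k _ _; exact abs_nonneg _
    have h3 := htail k₁ b le_rfl h'.le
    have h4 := abs_add_le (∑ k ∈ Ico a k₁, Dk D k) (∑ k ∈ Ico k₁ b, Dk D k)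
    linarith

end Pool.Agent.H49.Gol
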