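import Pool.Agent.H49.Gol.WeightCount

set_option autoImplicit false

/-! Summation of the weights (module M7). -/

namespace Pool.Agent.H49.Gol

open Finset Filter Topology Pool.Agent.H95.Gol Classical

lemma exp_half_log (k : ℕ) (C : ℝ) :
    Real.exp ((k * Real.log 2 + C) / 2) = √((2:ℝ) ^ k) * Real.exp (C / 2) := by
  rw [add_div, Real.exp_add]
  congr 1
  rw [Real.sqrt_eq_rpow, ← Real.rpow_natCast, ← Real.rpow_mul (by norm_num),
    Real.rpow_def_of_pos (by norm_num)]
  congr 1
  ring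

lemma log_ge {p m : ℕ} (h : 2 ^ m < p) (hm : 4 ≤ m) : (m : ℝ) / 4 ≤ Real.log p ∧
    1 ≤ Real.log p := by
  have h1 : (2:ℝ) ^ m ≤ p := by exact_mod_cast h.le
  have h2 : (m:ℝ) * Real.log 2 ≤ Real.log p := by
    rw [← Real.log_pow]
    exact Real.log_le_log (by positivity) h1
  have h3 : 0.6931471803 < Real.log 2 := Real.log_two_gt_d9
  have h4 : (4 : ℝ) ≤ m := by exact_mod_cast hm
  constructor <;> nlinarith

/-- the weights with a large block -/
lemma summable_H (hh : HighHyp) (s : ℤ) (hs : s = 1 ∨ s = -1) (E : ℝ) (hE : 0 < E) :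
    ∃ m₀ : ℕ, 4 ≤ m₀ ∧ Summable (fun p : ℕ => if p.Prime ∧ (ml p < m₀ ∨ BadH s p) then
      √((2:ℝ) ^ ko (ml p)) * E / (p * √(Real.log p)) else 0) := by
  obtain ⟨C, m₀, hC, hm₀, hcard⟩ := card_BadH hh
  refine ⟨m₀, hm₀, ?_⟩
  set r : ℝ := (2:ℝ) ^ (-(1 / 10) : ℝ) with hr
  have hr0 : 0 < r := by positivity
  have hr1 : r < 1 := Real.rpow_lt_one_of_one_lt_of_neg (by norm_num) (by norm_num)
  have hsum : Summable (fun m : ℕ => C * E * 8 * (((m : ℝ) + 2) ^ 5 * r ^ m)) := by
    apply Summable.mul_left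
    have h1 : Summable (fun n : ℕ => ((n : ℝ)) ^ 5 * r ^ n) :=
      summable_pow_mul_geometric_of_norm_lt_one 5 (by rw [Real.norm_of_nonneg hr0.le]; exact hr1)
    have h2 := (summable_nat_add_iff 2).2 h1
    have h3 := h2.mul_left (r ^ 2)⁻¹
    refine h3.congr fun m => ?_
    push_cast
    rw [pow_add]
    field_simp
  refine summable_of_blocks (u := fun m => 2 ^ m) ?_ hsum ?_ ?_ m₀ ?_
  · intro p
    split_ifs
    · positivity
    · exact le_rfl
  · intro m; positivity
  · exact pow_right_strictMono₀ (by norm_num)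
  · intro m hm
    have hm4 : 4 ≤ m := hm₀.trans hm
    have h1 : ∀ p ∈ Ioc (2^m) (2^(m+1)), (if p.Prime ∧ (ml p < m₀ ∨ BadH s p) then
        √((2:ℝ) ^ ko (ml p)) * E / (p * √(Real.log p)) else 0) ≤
        if p.Prime ∧ BadH s p then √((2:ℝ) ^ ko m) * E / 2 ^ m else 0 := by
      intro p hp
      rw [mem_Ioc] at hp
      have hml := ml_eq hp.1 hp.2
      rw [hml]
      by_cases hb : p.Prime ∧ BadH s p
      · rw [if_pos ⟨hb.1, Or.inr hb.2⟩, if_pos hb]
        obtain ⟨-, h3⟩ := log_ge hp.1 hm4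
        have h4 : 1 ≤ √(Real.log p) := by rw [Real.one_le_sqrt]; exact h3
        have h5 : (2:ℝ) ^ m ≤ p := by exact_mod_cast hp.1.le
        have h6 : (2:ℝ) ^ m ≤ p * √(Real.log p) := by nlinarith [show (0:ℝ) < 2 ^ m by positivity]
        exact div_le_div_of_nonneg_left (by positivity) (by positivity) h6
      · rw [if_neg hb, if_neg]
        rintro ⟨h3, h4⟩
        rcases h4 with h4 | h4
        · omega
        · exact hb ⟨h3, h4⟩
    refine (sum_le_sum h1).trans ?_
    rw [← sum_filter, sum_const, nsmul_eq_mul]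
    have h2 := hcard s hs m hm
    have hkom : ((ko m : ℕ) : ℝ) ≤ (m : ℝ) + 2 := by
      have : ko m ≤ m + 2 := by unfold ko; omega
      exact_mod_cast this
    have hpow : (2:ℝ) ^ ko m * √((2:ℝ) ^ ko m) / 2 ^ m ≤ 8 * r ^ m := by
      have e1 : (2:ℝ) ^ ko m * √((2:ℝ) ^ ko m) = (2:ℝ) ^ ((3/2 : ℝ) * ko m) := by
        rw [Real.sqrt_eq_rpow, ← Real.rpow_natCast, ← Real.rpow_mul (by norm_num),
          ← Real.rpow_add (by norm_num)]
        congr 1; ring
      have e2 : (8:ℝ) * r ^ m = (2:ℝ) ^ ((3:ℝ) - m / 10) := by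
        rw [hr, ← Real.rpow_natCast, ← Real.rpow_mul (by norm_num), sub_eq_add_neg,
          Real.rpow_add (by norm_num)]
        congr 1
        · norm_num
        · congr 1; ring
      have e3 : (2:ℝ) ^ m = (2:ℝ) ^ (m : ℝ) := (Real.rpow_natCast 2 m).symm
      rw [e1, e2, e3, ← Real.rpow_sub (by norm_num)]
      apply Real.rpow_le_rpow_of_exponent_le (by norm_num)
      have h7 : ((ko m : ℕ) : ℝ) ≤ 3 * m / 5 + 2 := by
        have : 5 * ko m ≤ 3 * m + 10 := by unfold ko; omega
        have h8 : (5 : ℝ) * (ko m : ℕ) ≤ 3 * m + 10 := by exact_mod_cast this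
        linarith
      linarith
    calc (((Ioc (2^m) (2^(m+1))).filter (fun p : ℕ => p.Prime ∧ BadH s p)).card : ℝ) *
          (√((2:ℝ) ^ ko m) * E / 2 ^ m)
        ≤ (C * (ko m) ^ 5 * 2 ^ ko m) * (√((2:ℝ) ^ ko m) * E / 2 ^ m) := by gcongr
      _ = C * E * ((ko m : ℕ) : ℝ) ^ 5 * ((2:ℝ) ^ ko m * √((2:ℝ) ^ ko m) / 2 ^ m) := by ring
      _ ≤ C * E * ((m : ℝ) + 2) ^ 5 * (8 * r ^ m) := by gcongr
      _ = C * E * 8 * (((m : ℝ) + 2) ^ 5 * r ^ m) := by ring

/-- the weights with an irregular low block -/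
lemma summable_L (s : ℤ) (hs : s = 1 ∨ s = -1) (E : ℝ) (hE : 0 < E) :
    Summable (fun p : ℕ => if BadL s p ∧ 4 ≤ ml p then
      √(ml p : ℝ) * E / (p * √(Real.log p)) else 0) := by
  have hsum : Summable (fun m : ℕ => 128 * E * (1 / (m : ℝ) ^ 4)) := by
    apply Summable.mul_left
    exact Real.summable_one_div_nat_pow.2 (by norm_num)
  refine summable_of_blocks (u := fun m => 2 ^ m) ?_ hsum ?_ ?_ 4 ?_
  · intro p
    split_ifs
    · positivity
    · exact le_rfl
  · intro m; positivity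
  · exact pow_right_strictMono₀ (by norm_num)
  · intro m hm
    have hm0 : (0:ℝ) < m := by exact_mod_cast (by omega : 0 < m)
    have h1 : ∀ p ∈ Ioc (2^m) (2^(m+1)), (if BadL s p ∧ 4 ≤ ml p then
        √(ml p : ℝ) * E / (p * √(Real.log p)) else 0) ≤
        if BadL s p then 2 * E / 2 ^ m else 0 := by
      intro p hp
      rw [mem_Ioc] at hp
      have hml := ml_eq hp.1 hp.2
      rw [hml]
      by_cases hb : BadL s p
      · rw [if_pos ⟨hb, hm⟩, if_pos hb]
        obtain ⟨h3, -⟩ := log_ge hp.1 hm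
        have h4 : √(m : ℝ) ≤ 2 * √(Real.log p) := by
          have : √(m:ℝ) ≤ √(4 * Real.log p) := Real.sqrt_le_sqrt (by linarith)
          refine this.trans (le_of_eq ?_)
          rw [Real.sqrt_mul (by norm_num)]
          congr 1
          rw [show (4:ℝ) = 2 ^ 2 by norm_num, Real.sqrt_sq (by norm_num)]
        have hlp : 0 < Real.log p := lt_of_lt_of_le (by positivity) h3
        have h5 : (2:ℝ) ^ m ≤ p := by exact_mod_cast hp.1.le
        have hp0 : (0:ℝ) < p := lt_of_lt_of_le (by positivity) h5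
        rw [div_le_div_iff₀ (by positivity) (by positivity)]
        calc √(m:ℝ) * E * 2 ^ m ≤ (2 * √(Real.log p)) * E * p := by gcongr
          _ = 2 * E * (p * √(Real.log p)) := by ring
      · rw [if_neg hb, if_neg]
        rintro ⟨h3, -⟩
        exact hb h3
    refine (sum_le_sum h1).trans ?_
    rw [← sum_filter, sum_const, nsmul_eq_mul]
    have h2 := card_BadL s hs hm
    calc (((Ioc (2^m) (2^(m+1))).filter (fun p : ℕ => BadL s p)).card : ℝ) * (2 * E / 2 ^ m)
        ≤ (64 * 2 ^ m / m ^ 4) * (2 * E / 2 ^ m) := by gcongr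
      _ = 128 * E * (1 / (m : ℝ) ^ 4) := by field_simp; ring

/-- the other weights -/
lemma summable_G (E : ℝ) (hE : 0 < E) :
    Summable (fun p : ℕ => if p.Prime ∧ 4 ≤ ml p then
      √(2 ^ kz (ml p) : ℝ) * E / (p * √(Real.log p)) else 0) := by
  obtain ⟨Cb, hCb, hblk⟩ := Pool.Agent.H66.Gol.blk
  set r : ℝ := 1 / √2 with hr
  have hr0 : 0 < r := by positivity
  have hs2 : 1 < √(2:ℝ) := by rw [Real.lt_sqrt (by norm_num)]; norm_num
  have hr1 : r < 1 := by rw [hr, div_lt_one (by positivity)]; exact hs2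
  have hsum : Summable (fun k : ℕ => 6 * E * (1 + Cb) * (((k : ℝ) + 1) * r ^ k)) := by
    apply Summable.mul_left
    have h1 : Summable (fun n : ℕ => ((n : ℝ)) ^ 1 * r ^ n) :=
      summable_pow_mul_geometric_of_norm_lt_one 1 (by rw [Real.norm_of_nonneg hr0.le]; exact hr1)
    have h2 := (summable_nat_add_iff 1).2 h1
    have h3 := h2.mul_left (r)⁻¹
    refine h3.congr fun m => ?_
    push_cast
    rw [pow_add]
    field_simp
  refine summable_of_blocks (u := bb) ?_ hsum ?_ bb_strictMono 2 ?_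
  · intro p
    split_ifs
    · positivity
    · exact le_rfl
  · intro m; positivity
  · intro k hk
    have hl2 : 0.6931471803 < Real.log 2 := Real.log_two_gt_d9
    have h1 : ∀ p ∈ Ioc (bb k) (bb (k+1)), (if p.Prime ∧ 4 ≤ ml p then
        √(2 ^ kz (ml p) : ℝ) * E / (p * √(Real.log p)) else 0) ≤
        if p.Prime then 6 * E * ((k : ℝ) + 1) * r ^ k * (1 / p) else 0 := by
      intro p hp
      rw [mem_Ioc] at hp
      by_cases hb : p.Prime
      swap
      · rw [if_neg hb, if_neg (fun h => hb h.1)]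
      rw [if_pos hb]
      by_cases hm4 : 4 ≤ ml p
      swap
      · rw [if_neg (fun h => hm4 h.2)]
        positivity
      rw [if_pos ⟨hb, hm4⟩]
      obtain ⟨hm1, hm2⟩ := ml_spec hb.two_le
      have hlow : 2 ^ k ≤ ml p := by
        have h3 : bb k < 2 ^ (ml p + 1) := lt_of_lt_of_le hp.1 hm2
        unfold bb at h3
        have := (Nat.pow_lt_pow_iff_right (by norm_num : 1 < 2)).1 h3
        omega
      have hup : ml p < 2 ^ (k + 1) := by
        have h3 : 2 ^ ml p < bb (k+1) := lt_of_lt_of_le hm1 hp.2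
        unfold bb at h3
        exact (Nat.pow_lt_pow_iff_right (by norm_num : 1 < 2)).1 h3
      have hlog : Nat.log 2 (ml p) = k :=
        (Nat.log_eq_iff (Or.inr ⟨by norm_num, by omega⟩)).2 ⟨hlow, hup⟩
      have hkz := (kz_facts hm4).2
      rw [hlog] at hkz
      have h4 : √((2:ℝ) ^ kz (ml p)) ≤ 3 * ((k:ℝ) + 1) := by
        rw [Real.sqrt_le_left (by positivity)]
        have : ((2:ℝ) ^ kz (ml p)) ≤ 8 * k := by exact_mod_cast hkz
        have hk0 : (0:ℝ) ≤ k := Nat.cast_nonneg k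
        nlinarith
      have hlogp : (2:ℝ) ^ k * Real.log 2 ≤ Real.log p := by
        rw [← log_bb]
        exact Real.log_le_log (by exact_mod_cast bb_pos k) (by exact_mod_cast hp.1.le)
      have h5 : (√(2:ℝ)) ^ k ≤ 2 * √(Real.log p) := by
        have e : (√(2:ℝ)) ^ k = √((2:ℝ) ^ k) := by
          rw [Real.sqrt_eq_rpow, Real.sqrt_eq_rpow, ← Real.rpow_natCast, ← Real.rpow_mul (by norm_num),
            ← Real.rpow_natCast, ← Real.rpow_mul (by norm_num)]
          congr 1; ring
        rw [e]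
        have : √((2:ℝ) ^ k) ≤ √(4 * Real.log p) := by
          apply Real.sqrt_le_sqrt
          nlinarith [show (0:ℝ) < 2 ^ k by positivity]
        refine this.trans (le_of_eq ?_)
        rw [Real.sqrt_mul (by norm_num)]
        congr 1
        rw [show (4:ℝ) = 2 ^ 2 by norm_num, Real.sqrt_sq (by norm_num)]
      have hlp : 0 < Real.log p := lt_of_lt_of_le (by positivity) hlogp
      have hp0 : (0:ℝ) < p := by exact_mod_cast hb.pos
      have hrk : r ^ k = 1 / (√(2:ℝ)) ^ k := by rw [hr, one_div_pow]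
      rw [hrk]
      have hs2k : 0 < (√(2:ℝ)) ^ k := by positivity
      have h6 : 1 / √(Real.log p) ≤ 2 * (1 / (√(2:ℝ)) ^ k) := by
        rw [mul_one_div, div_le_div_iff₀ (by positivity) hs2k]
        linarith
      calc √((2:ℝ) ^ kz (ml p)) * E / (p * √(Real.log p))
          = √((2:ℝ) ^ kz (ml p)) * E * (1 / √(Real.log p)) * (1 / p) := by field_simp
        _ ≤ 3 * ((k:ℝ) + 1) * E * (2 * (1 / (√(2:ℝ)) ^ k)) * (1 / p) := by gcongr
        _ = 6 * E * ((k : ℝ) + 1) * (1 / (√(2:ℝ)) ^ k) * (1 / p) := by ring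
    refine (sum_le_sum h1).trans ?_
    rw [← sum_filter, ← mul_sum]
    have h2 : ∑ l ∈ (Ioc (bb k) (bb (k+1))).filter (fun p => p.Prime), (1:ℝ) / l ≤ 1 + Cb := by
      have h3 := (abs_le.1 (hblk k)).2
      have h4 : Cb / 2 ^ k ≤ Cb := div_le_self hCb.le (one_le_pow₀ (by norm_num))
      have h5 : Real.log 2 < 0.6931471808 := Real.log_two_lt_d9
      have e : ∑ l ∈ (Ioc (bb k) (bb (k+1))).filter (fun p => p.Prime), (1:ℝ) / l =
          ∑ l ∈ PB k, (1:ℝ) / l := by
        unfold PB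
        congr
      rw [e]
      linarith
    calc 6 * E * ((k : ℝ) + 1) * r ^ k *
          ∑ l ∈ (Ioc (bb k) (bb (k+1))).filter (fun p => p.Prime), (1:ℝ) / l
        ≤ 6 * E * ((k : ℝ) + 1) * r ^ k * (1 + Cb) := by gcongr
      _ = 6 * E * (1 + Cb) * (((k : ℝ) + 1) * r ^ k) := by ring

/-- M7 from the other modules -/
theorem weight_of (hh : HighHyp) (hc : CharHyp) (s : ℤ) (hs : s = 1 ∨ s = -1) : ∃ μ : ℕ → ℝ,
    (∀ p : ℕ, p.Prime → ∀ a b : ℕ, a ≤ b → |∑ k ∈ Ico a b, Dk (s * p) k| ≤ μ p) ∧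
    Summable (fun p : ℕ => if p.Prime then Real.exp (μ p / 2) / (p * √(Real.log p)) else 0) := by
  obtain ⟨Cb, hCb, hblk⟩ := Pool.Agent.H66.Gol.blk
  obtain ⟨Ct, hCt, htail⟩ := tail hc
  set C0 := 10 + 10 * Cb + Ct with hC0
  set E := Real.exp (C0 / 2) with hE
  have hEpos : 0 < E := Real.exp_pos _
  obtain ⟨m₀, hm₀, hsumH⟩ := summable_H hh s hs E hEpos
  have hsumL := summable_L s hs E hEpos
  have hsumG := summable_G E hEpos
  refine ⟨fun p => if ml p < m₀ ∨ BadH s p then ko (ml p) * Real.log 2 + C0 else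
    if BadL s p then Nat.log 2 (ml p) * Real.log 2 + C0 else kz (ml p) * Real.log 2 + C0, ?_, ?_⟩
  · intro p hp a b hab
    have hko : p ^ 3 ≤ (2 ^ ko (ml p)) ^ 5 := by
      obtain ⟨-, h2⟩ := ml_spec hp.two_le
      calc p ^ 3 ≤ (2 ^ (ml p + 1)) ^ 3 := Nat.pow_le_pow_left h2 3
        _ ≤ (2 ^ ko (ml p)) ^ 5 := by
            rw [← pow_mul, ← pow_mul]
            apply Nat.pow_le_pow_right (by norm_num)
            unfold ko; omega
    have h1 := sum_split hCt.le (htail s hs p hp (ko (ml p)) hko) a b hab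
    refine h1.trans ?_
    simp only
    split_ifs with h2 h3
    · have := T_all hCb hblk (s * p) (ko (ml p))
      linarith
    · push Not at h2
      have := T_notH hCb hblk s p h2.2
      linarith
    · push Not at h2
      have := T_good hCb hblk s p h2.2 h3
      linarith
  · refine Summable.of_nonneg_of_le ?_ ?_ ((hsumH.add hsumL).add hsumG)
    · intro p
      split_ifs <;> positivity
    · intro p
      have n1 : 0 ≤ (if p.Prime ∧ (ml p < m₀ ∨ BadH s p) then
          √((2:ℝ) ^ ko (ml p)) * E / (p * √(Real.log p)) else 0) := by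
        split_ifs <;> positivity
      have n2 : 0 ≤ (if BadL s p ∧ 4 ≤ ml p then
          √(ml p : ℝ) * E / (p * √(Real.log p)) else 0) := by
        split_ifs <;> positivity
      have n3 : 0 ≤ (if p.Prime ∧ 4 ≤ ml p then
          √(2 ^ kz (ml p) : ℝ) * E / (p * √(Real.log p)) else 0) := by
        split_ifs <;> positivity
      by_cases hp : p.Prime
      swap
      · rw [if_neg hp]; positivity
      rw [if_pos hp]
      by_cases h2 : ml p < m₀ ∨ BadH s p
      · have e : (if p.Prime ∧ (ml p < m₀ ∨ BadH s p) then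
          √((2:ℝ) ^ ko (ml p)) * E / (p * √(Real.log p)) else 0) =
          √((2:ℝ) ^ ko (ml p)) * E / (p * √(Real.log p)) := if_pos ⟨hp, h2⟩
        simp only [if_pos h2]
        rw [exp_half_log]
        linarith
      · simp only [if_neg h2]
        push Not at h2
        have h4 : 4 ≤ ml p := hm₀.trans h2.1
        by_cases h3 : BadL s p
        · have e : (if BadL s p ∧ 4 ≤ ml p then
            √(ml p : ℝ) * E / (p * √(Real.log p)) else 0) =
            √(ml p : ℝ) * E / (p * √(Real.log p)) := if_pos ⟨h3, h4⟩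
          simp only [if_pos h3]
          rw [exp_half_log]
          have h5 : √((2:ℝ) ^ Nat.log 2 (ml p)) ≤ √(ml p : ℝ) := by
            apply Real.sqrt_le_sqrt
            exact_mod_cast (log_facts h4).1
          have h6 : √((2:ℝ) ^ Nat.log 2 (ml p)) * Real.exp (C0 / 2) / (p * √(Real.log p)) ≤
              √(ml p : ℝ) * E / (p * √(Real.log p)) := by
            gcongr
          linarith
        · have e : (if p.Prime ∧ 4 ≤ ml p then
            √(2 ^ kz (ml p) : ℝ) * E / (p * √(Real.log p)) else 0) =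
            √(2 ^ kz (ml p) : ℝ) * E / (p * √(Real.log p)) := if_pos ⟨hp, h4⟩
          simp only [if_neg h3]
          rw [exp_half_log]
          linarith

end Pool.Agent.H49.Gol
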